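import Pool.Agent.Helper22.SQC.GID

/-! MP_bb32d1_al, stage C, packet GIE: `Ge` is invertible. -/

set_option autoImplicit false

namespace Pool.Agent.Helper8.SQC

noncomputable section

open Matrix Pool.Agent.Helper19.SQ Pool.Agent.Helper34.SQ Pool.Agent.Helper41.SQ
  Pool.Agent.Helper4.SQ Pool.Agent.Helper41.SQC Pool.Agent.Helper22.SQC

section Red

variable {N l : ℕ} {q : ℂ} {B : Type} [CommRing B] [Algebra ℂ B]

/-- entries of `comp` of `eFt`. -/
theorem wzF_aug (aug : B →ₐ[ℂ] ℂ) (t' : ℕ → B) (ht : ∀ i, aug (t' i) = 1)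
    (lam : Fin (N + 1) → ZMod l) (k : ℕ) :
    (wzF q t' lam k).map aug = wzF q (fun _ => (1 : ℂ)) lam k := by
  have hK : ∀ j, aug.mapMatrix (zK q B lam j) = zK q ℂ lam j := fun j => zK_aug aug lam j
  have hF : aug.mapMatrix (zF N l q B k) = zF N l q ℂ k := zF_aug aug k
  have e : aug.mapMatrix (algebraMap B (Matrix (EX N l) (EX N l) B) (t' k))
      = algebraMap ℂ (Matrix (EX N l) (EX N l) ℂ) 1 := by
    ext a b
    rw [AlgHom.mapMatrix_apply, Matrix.map_apply, Matrix.algebraMap_matrix_apply,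
      Matrix.algebraMap_matrix_apply]
    split_ifs
    · exact ht k
    · exact map_zero _
  ext ⟨i, a⟩ ⟨j, b⟩
  have h0 : ∀ (X : Matrix (EX N l) (EX N l) B), aug (X a b) = (aug.mapMatrix X) a b :=
    fun X => rfl
  rw [Matrix.map_apply]
  unfold wzF
  rw [Matrix.comp_apply, Matrix.comp_apply]
  change aug ((eFt N l q (fun k => algebraMap B (Matrix (EX N l) (EX N l) B) (t' k))
    (zF N l q B) (zK q B lam) k i j) a b) = _
  rw [h0]
  refine congrFun (congrFun ?_ a) b
  change aug.mapMatrix (eFt N l q (fun k => algebraMap B (Matrix (EX N l) (EX N l) B) (t' k))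
    (zF N l q B) (zK q B lam) k i j) =
    eFt N l q (fun k => algebraMap ℂ (Matrix (EX N l) (EX N l) ℂ) 1) (zF N l q ℂ) (zK q ℂ lam) k i j
  simp only [eFt, Matrix.of_apply, map_add]
  congr 1
  · split_ifs
    · exact hF
    · exact map_zero _
  · split_ifs
    · rw [map_smul, map_mul, map_mul, e, hK]
      unfold ki
      rw [map_pow, hK]
    · exact map_zero _

theorem Ge_aug [NeZero l] (aug : B →ₐ[ℂ] ℂ) (t' : ℕ → B) (ht : ∀ i, aug (t' i) = 1)
    (lam : Fin (N + 1) → ZMod l) :
    (Ge q t' lam).map aug = Ge q (fun _ => (1 : ℂ)) lam := by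
  ext x y
  rw [Matrix.map_apply]
  unfold Ge
  rw [Matrix.of_apply, Matrix.of_apply]
  have h1 : wzF q (fun _ => (1 : ℂ)) lam = fun k => aug.mapMatrix (wzF q t' lam k) := by
    funext k
    exact (wzF_aug aug t' ht lam k).symm
  rw [h1, mon_mapA]
  rfl

end Red

theorem eFt_one {R : Type} [Ring R] [Algebra ℂ R] (N l : ℕ) (q : ℂ) (F K : ℕ → R) (k : ℕ) :
    eFt N l q (fun _ => (1 : R)) F K k = eF N l q F K k := by
  ext a b
  simp only [eFt, eF, Matrix.of_apply, one_mul]

theorem eE_mapA {R S : Type} [Ring R] [Algebra ℂ R] [Ring S] [Algebra ℂ S] (f : R →ₐ[ℂ] S)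
    (N : ℕ) (q : ℂ) (E : ℕ → R) (k : ℕ) :
    (eE N q E k).map f = eE N q (fun i => f (E i)) k := by
  ext a b
  simp only [eE, Matrix.map_apply, Matrix.of_apply, map_add]
  congr 1
  · split_ifs
    · rw [map_smul]
    · exact map_zero _
  · split_ifs
    · rw [map_smul, map_one]
    · exact map_zero _

theorem eF_mapA {R S : Type} [Ring R] [Algebra ℂ R] [Ring S] [Algebra ℂ S] (f : R →ₐ[ℂ] S)
    (N l : ℕ) (q : ℂ) (F K : ℕ → R) (k : ℕ) :
    (eF N l q F K k).map f = eF N l q (fun i => f (F i)) (fun i => f (K i)) k := by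
  ext a b
  simp only [eF, Matrix.map_apply, Matrix.of_apply, map_add]
  congr 1
  · split_ifs
    · rfl
    · exact map_zero _
  · split_ifs
    · unfold ki
      rw [map_smul, map_mul, map_pow]
    · exact map_zero _

theorem eK_mapA {R S : Type} [Ring R] [Algebra ℂ R] [Ring S] [Algebra ℂ S] (f : R →ₐ[ℂ] S)
    (N : ℕ) (q : ℂ) (K : ℕ → R) (j : ℕ) :
    (eK N q K j).map f = eK N q (fun i => f (K i)) j := by
  ext a b
  simp only [eK, Matrix.map_apply, Matrix.of_apply]
  split_ifs
  · rw [map_smul]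
  · rw [map_smul]
  · exact map_zero _

theorem c_gie (hGE : S_GE) (hZC : S_ZC) (hCUP : S_CUP1) : S_GIE := by
  intro N l _ q D hP V B _ _ aug hn t' ht lam
  apply isUnit_of_aug aug hn
  have e1 : aug (Ge q t' lam).det = (Ge q (fun _ => (1 : ℂ)) lam).det := by
    rw [← Ge_aug aug t' ht lam]
    have := RingHom.map_det aug.toRingHom (Ge q t' lam)
    exact this
  rw [e1]
  set G := Ge q (fun _ => (1 : ℂ)) lam with hG
  obtain ⟨hgl, -, hmon⟩ := hZC N l q D hP V lam
  let ρ : A N l q →ₐ[ℂ] Matrix (EX N l) (EX N l) ℂ := liftA hgl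
  let R : A N l q →ₐ[ℂ] Matrix (Fin (N + 1) × EX N l) (Fin (N + 1) × EX N l) ℂ :=
    (Matrix.compAlgEquiv (Fin (N + 1)) (EX N l) ℂ ℂ).toAlgHom.comp
      ((AlgHom.mapMatrix ρ).comp D.ep)
  have hR : ∀ a, R a = Matrix.comp _ _ _ _ _ ((D.ep a).map ρ) := fun a => rfl
  have one1 : (fun _ : ℕ => algebraMap ℂ (Matrix (EX N l) (EX N l) ℂ) 1) = fun _ => 1 := by
    funext _
    exact map_one _
  have RE : ∀ k, R (gE N l q k) = wzE V (fun _ => (1 : ℂ)) (fun _ => 1) lam k := by
    intro k
    rw [hR, D.ep_E, eE_mapA]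
    unfold wzE
    congr 2
    funext i
    exact liftA_E hgl i
  have RF : ∀ k, R (gF N l q k) = wzF q (fun _ => (1 : ℂ)) lam k := by
    intro k
    rw [hR, D.ep_F, eF_mapA]
    unfold wzF
    rw [one1, eFt_one]
    congr 2
    · funext i
      exact liftA_F hgl i
    · funext i
      exact liftA_K hgl i
  have RK : ∀ k, R (gK N l q k) = wzK q ℂ lam k := by
    intro k
    rw [hR, D.ep_K, eK_mapA]
    unfold wzK
    congr 2
    funext i
    exact liftA_K hgl i
  have hgd := fun k => hGE N l q D hP V ℂ (fun _ => (1 : ℂ)) (fun _ => 1) (fun _ => one_mul 1) lam k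
  have hst : ∀ a, ∃ T, R a * G = G * T := by
    refine range_stable G R (fun k => ?_) (fun k => ?_) (fun k => ?_)
    · rw [RE]; exact ⟨_, (hgd k).1⟩
    · rw [RF]; exact ⟨_, (hgd k).2.1⟩
    · rw [RK]; exact ⟨_, (hgd k).2.2⟩
  -- the vectors `u_j`
  have hu : ∀ j : Fin (N + 1), G *ᵥ Pi.single (j, zX N l) 1 = Pi.single (j, zX N l) 1 := by
    intro j
    funext x
    rw [Matrix.mulVec_single_one]
    change G x (j, zX N l) = _
    rw [hG]
    unfold Ge
    rw [Matrix.of_apply]
    change (mon N q (wzF q (fun _ => (1 : ℂ)) lam) (zX N l).1) x (j, zX N l) = _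
    rw [mon_zX, Matrix.one_apply, Pi.single_apply]
  have hsurj : Function.Surjective G.mulVec := by
    have hrange : ∀ w : Fin (N + 1) × EX N l → ℂ, w ∈ LinearMap.range G.mulVecLin := by
      have hb : ∀ x : Fin (N + 1) × EX N l,
          (Pi.single x 1 : Fin (N + 1) × EX N l → ℂ) ∈ LinearMap.range G.mulVecLin := by
        rintro ⟨p, b⟩
        let a : A N l q := mon N q (gF N l q) b.1
        have hq : q ≠ 0 := hP.prim.ne_zero (by have := hP.h3; omega)
        have hs : ∀ k : Fin (N + 1), q ^ (2 * (k : ℕ)) •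
            (R (D.dl a p k) *ᵥ (Pi.single (k, zX N l) 1 : Fin (N + 1) × EX N l → ℂ))
            ∈ LinearMap.range G.mulVecLin := by
          intro k
          apply Submodule.smul_mem
          obtain ⟨T, hT⟩ := hst (D.dl a p k)
          refine ⟨T *ᵥ Pi.single (k, zX N l) 1, ?_⟩
          rw [Matrix.mulVecLin_apply, Matrix.mulVec_mulVec, ← hT, ← Matrix.mulVec_mulVec, hu]
        have hsum := Submodule.sum_mem _ fun (k : Fin (N + 1)) (_ : k ∈ Finset.univ) => hs k
        have e2 : ∑ k : Fin (N + 1), q ^ (2 * (k : ℕ)) •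
            (R (D.dl a p k) *ᵥ (Pi.single (k, zX N l) 1 : Fin (N + 1) × EX N l → ℂ))
            = q ^ (2 * (p : ℕ)) • (Pi.single (p, b) 1 : Fin (N + 1) × EX N l → ℂ) := by
          funext ⟨j, c⟩
          rw [Finset.sum_apply]
          have e3 : ∀ k : Fin (N + 1), (q ^ (2 * (k : ℕ)) •
              (R (D.dl a p k) *ᵥ (Pi.single (k, zX N l) 1 : Fin (N + 1) × EX N l → ℂ))) (j, c)
              = ρ (q ^ (2 * (k : ℕ)) • D.ep (D.dl a p k) j k) c (zX N l) := by
            intro k
            rw [Pi.smul_apply, Matrix.mulVec_single_one, map_smul]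
            rfl
          rw [Finset.sum_congr rfl fun k _ => e3 k]
          have e4 : ∑ k : Fin (N + 1), ρ (q ^ (2 * (k : ℕ)) • D.ep (D.dl a p k) j k) c (zX N l)
              = ρ (∑ k : Fin (N + 1), q ^ (2 * (k : ℕ)) • D.ep (D.dl a p k) j k) c (zX N l) := by
            rw [map_sum, Matrix.sum_apply]
          rw [e4, hCUP N l q hP D a p j]
          by_cases hjp : j = p
          · subst hjp
            rw [if_pos rfl]
            have e5 : ρ a = mon N q (zF N l q ℂ) b.1 := by
              change ρ (mon N q (gF N l q) b.1) = _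
              rw [← mon_mapA]
              congr 1
              funext k
              exact liftA_F hgl k
            have e6 := congrFun (hmon b) c
            rw [Matrix.mulVec_single_one] at e6
            rw [map_smul, e5, Pi.smul_apply, Matrix.smul_apply]
            congr 1
            refine Eq.trans e6 ?_
            rw [Pi.single_apply, Pi.single_apply]
            by_cases hcb : c = b
            · rw [if_pos hcb, if_pos (by rw [hcb])]
            · rw [if_neg hcb, if_neg (fun h => hcb (Prod.mk.inj h).2)]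
          · rw [if_neg hjp, map_zero, Matrix.zero_apply, Pi.smul_apply, Pi.single_apply, if_neg,
              smul_zero]
            exact fun h => hjp (Prod.mk.inj h).1
        rw [e2] at hsum
        have h5 := Submodule.smul_mem _ (q ^ (2 * (p : ℕ)))⁻¹ hsum
        rwa [smul_smul, inv_mul_cancel₀ (pow_ne_zero _ hq), one_smul] at h5
      intro w
      have : w = ∑ x, w x • (Pi.single x 1 : Fin (N + 1) × EX N l → ℂ) := by
        funext y
        simp [Finset.sum_apply, Pi.single_apply]
      rw [this]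
      exact Submodule.sum_mem _ fun x _ => Submodule.smul_mem _ _ (hb x)
    intro w
    obtain ⟨v, hv⟩ := hrange w
    exact ⟨v, hv⟩
  have h3 : IsUnit G := Matrix.mulVec_surjective_iff_isUnit.mp hsurj
  exact ((Matrix.isUnit_iff_isUnit_det _).mp h3).ne_zero

end

end Pool.Agent.Helper8.SQC
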